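import Pool.Agent.helper52.EU.SpecK

set_option autoImplicit false

open Finset

namespace Pool.Agent.EU

open Pool.Agent.FI Pool.Agent.HK Pool.Agent.BP Pool.Agent.YB
open Pool.Agent.CH (nit rgh)

theorem MVQ (hMV2 : MV2_stmt) (hTFE : TFE_stmt) : MVQ_stmt := by
  classical
  obtain ⟨C, hC, h1⟩ := hMV2
  obtain ⟨h2, -⟩ := hTFE
  refine ⟨2 * C, by positivity, ?_⟩
  intro N M₁ c α V Q b hM hMN hα0 hα1 hV hb hQ
  have hM1 : (1 : ℝ) ≤ M₁ := by exact_mod_cast hM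
  have hN1 : 1 ≤ N := le_trans (by nlinarith) hMN
  have hN0 : (0 : ℝ) < N := by exact_mod_cast hN1
  have h3 := h1 N M₁ α b hN1 hM hα0 hα1
  have h4 : (M₁ : ℝ) ≤ √(N : ℝ) := by
    apply Real.le_sqrt_of_sq_le
    exact_mod_cast hMN
  have h5 : (M₁ : ℝ) * √(N : ℝ) ≤ N := by
    calc (M₁ : ℝ) * √(N : ℝ) ≤ √(N : ℝ) * √(N : ℝ) := mul_le_mul_of_nonneg_right h4 (Real.sqrt_nonneg _)
      _ = N := Real.mul_self_sqrt hN0.le
  have h6 : ∑ z ∈ FF N, ‖b z‖ ^ 2 ≤ V ^ 2 * ∑ z ∈ FF N with Q (nn z), (#(nn z).divisors : ℝ) ^ (2 * c) := by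
    rw [Finset.mul_sum, Finset.sum_filter]
    refine Finset.sum_le_sum (fun z _ => ?_)
    by_cases hq : Q (nn z)
    · rw [if_pos hq]
      calc ‖b z‖ ^ 2 ≤ (V * (#(nn z).divisors : ℝ) ^ c) ^ 2 := by
            exact pow_le_pow_left₀ (norm_nonneg _) (hb z) 2
        _ = V ^ 2 * (#(nn z).divisors : ℝ) ^ (2 * c) := by
            rw [mul_pow, ← pow_mul, mul_comm c 2]
    · rw [if_neg hq]
      have hz : b z = 0 := by
        by_contra h0
        exact hq (hQ z h0)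
      rw [hz]
      simp
  have h7 : ∑ z ∈ FF N with Q (nn z), (#(nn z).divisors : ℝ) ^ (2 * c) ≤
      ∑ n ∈ Icc 1 N with Q n, (#n.divisors : ℝ) ^ (2 * c + 2) := h2 N (2 * c) Q
  have h8 : 0 ≤ ∑ n ∈ Icc 1 N with Q n, (#n.divisors : ℝ) ^ (2 * c + 2) :=
    Finset.sum_nonneg (fun n _ => by positivity)
  refine h3.trans ?_
  calc C * (N + M₁ * √(N : ℝ)) * ∑ z ∈ FF N, ‖b z‖ ^ 2
      ≤ C * (N + N) * (V ^ 2 * ∑ n ∈ Icc 1 N with Q n, (#n.divisors : ℝ) ^ (2 * c + 2)) := by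
        apply mul_le_mul
        · exact mul_le_mul_of_nonneg_left (by linarith) hC.le
        · exact h6.trans (mul_le_mul_of_nonneg_left h7 (by positivity))
        · exact Finset.sum_nonneg (fun n _ => by positivity)
        · positivity
    _ = 2 * C * V ^ 2 * N * ∑ n ∈ Icc 1 N with Q n, (#n.divisors : ℝ) ^ (2 * c + 2) := by ring

end Pool.Agent.EU
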